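import Mathlib
import Pool.Agent.H153R4.Pl
set_option autoImplicit false

/-! # Bounds for the fourth moment of the Fourier transform -/

namespace Pool.Agent.V1178.DE

open MeasureTheory Filter Topology Set FourierTransform
open scoped ENNReal Convolution

/-- `∫ |h(y)| |h(x-y)| dy` -/
noncomputable def D (h : ℝ → ℂ) (x : ℝ) : ℝ≥0∞ := ∫⁻ y, ‖h y‖ₑ * ‖h (x - y)‖ₑ

theorem key (h : ℝ → ℂ) (h1 : Integrable h) : ∫⁻ ξ, ‖𝓕 h ξ‖ₑ ^ 4 ≤ ∫⁻ x, D h x ^ 2 := by
  by_cases hfin : ∫⁻ x, D h x ^ 2 = ∞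
  · rw [hfin]; exact le_top
  set c : ℝ → ℂ := h ⋆[ContinuousLinearMap.mul ℂ ℂ] h with hc
  have hci : Integrable c := h1.integrable_convolution _ h1
  have hcD : ∀ x, ‖c x‖ₑ ≤ D h x := by
    intro x
    rw [hc, convolution_def]
    refine (enorm_integral_le_lintegral_enorm _).trans (lintegral_mono fun t => ?_)
    simp only [ContinuousLinearMap.mul_apply', enorm_mul]
    exact le_rfl
  have hle : ∫⁻ x, ‖c x‖ₑ ^ 2 ≤ ∫⁻ x, D h x ^ 2 :=
    lintegral_mono fun x => pow_le_pow_left₀ (by simp) (hcD x) 2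
  have hc2 : MemLp c 2 := by
    refine ⟨hci.aestronglyMeasurable, ?_⟩
    have b1 := eLpNorm_nnreal_pow_eq_lintegral (f := c) (μ := (volume : Measure ℝ)) (p := 2) (by norm_num)
    have c1 : (((2 : NNReal) : ℝ≥0∞)) = 2 := by norm_num
    rw [c1] at b1
    simp only [NNReal.coe_ofNat, ENNReal.rpow_ofNat] at b1
    have : eLpNorm c 2 volume ^ 2 < ∞ := by
      rw [b1]; exact hle.trans_lt (lt_top_iff_ne_top.mpr hfin)
    by_contra hcon
    rw [not_lt, top_le_iff] at hcon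
    rw [hcon] at this
    simp at this
  have hpl := Pool.Agent.H153R4.plancherel c hci hc2
  have hF : ∀ ξ, ‖𝓕 h ξ‖ₑ ^ 4 = ‖𝓕 c ξ‖ₑ ^ 2 := by
    intro ξ
    have : 𝓕 c ξ = 𝓕 h ξ * 𝓕 h ξ := by
      rw [hc]
      have := Real.fourier_mul_convolution_eq (E := ℝ) (R := ℂ) h1 h1 ξ
      exact this
    rw [this, enorm_mul]; ring
  simp_rw [hF]
  rw [hpl]
  exact hle

/-- Cauchy-Schwarz -/
theorem cs {α : Type*} [MeasurableSpace α] (μ : Measure α) (f g : α → ℝ≥0∞) (hf : AEMeasurable f μ)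
    (hg : AEMeasurable g μ) : (∫⁻ a, f a * g a ∂μ) ^ 2 ≤ (∫⁻ a, f a ^ 2 ∂μ) * ∫⁻ a, g a ^ 2 ∂μ := by
  have h := ENNReal.lintegral_mul_le_Lp_mul_Lq μ Real.HolderConjugate.two_two hf hg
  have h2 := pow_le_pow_left₀ (by simp) h 2
  refine h2.trans (le_of_eq ?_)
  simp only [ENNReal.rpow_ofNat]
  rw [mul_pow, ← ENNReal.rpow_natCast, ← ENNReal.rpow_natCast, ← ENNReal.rpow_mul,
    ← ENNReal.rpow_mul]
  norm_num

theorem trans_int (u : ℝ → ℝ≥0∞) (x : ℝ) : ∫⁻ y, u (x - y) = ∫⁻ y, u y :=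
  lintegral_sub_left_eq_self u x

theorem young_int (u : ℝ → ℝ≥0∞) (hu : Measurable u) :
    ∫⁻ x, ∫⁻ y, u y * u (x - y) = (∫⁻ y, u y) ^ 2 := by
  rw [lintegral_lintegral_swap]
  · have h1 : ∀ y, ∫⁻ x, u y * u (x - y) = u y * ∫⁻ x, u x := by
      intro y
      have hm : Measurable fun x => u (x - y) := hu.comp (measurable_sub_const _)
      rw [lintegral_const_mul _ hm, lintegral_sub_right_eq_self]
    simp_rw [h1]
    rw [lintegral_mul_const _ hu, sq]
  · exact ((hu.comp measurable_snd).mul (hu.comp (measurable_fst.sub measurable_snd))).aemeasurable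

/-- the first case -/
theorem first (h : ℝ → ℂ) (hm : Measurable h) :
    ∫⁻ x, D h x ^ 2 ≤ (∫⁻ x, ‖h x‖ₑ ^ (4 / 3 : ℝ)) ^ 3 := by
  set N : ℝ≥0∞ := ∫⁻ x, ‖h x‖ₑ ^ (4 / 3 : ℝ) with hN
  have hm' : ∀ x : ℝ, Measurable fun y => h (x - y) := fun x =>
    hm.comp (measurable_const.sub measurable_id)
  have hpt : ∀ x, D h x ^ 2 ≤ (∫⁻ y, ‖h y‖ₑ ^ (4 / 3 : ℝ) * ‖h (x - y)‖ₑ ^ (4 / 3 : ℝ)) * N := by
    intro x
    have e1 : D h x = ∫⁻ y, (‖h y‖ₑ * ‖h (x - y)‖ₑ) ^ (2 / 3 : ℝ) * (‖h y‖ₑ * ‖h (x - y)‖ₑ) ^ (1 / 3 : ℝ) := by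
      unfold D
      refine lintegral_congr fun y => ?_
      rw [← ENNReal.rpow_add_of_nonneg _ _ (by norm_num) (by norm_num)]
      norm_num
    have hmm : Measurable fun y => ‖h y‖ₑ * ‖h (x - y)‖ₑ := hm.enorm.mul (hm' x).enorm
    rw [e1]
    refine (cs volume _ _ (hmm.pow_const _).aemeasurable (hmm.pow_const _).aemeasurable).trans ?_
    refine mul_le_mul' (le_of_eq ?_) ?_
    · refine lintegral_congr fun y => ?_
      rw [← ENNReal.rpow_natCast, ← ENNReal.rpow_mul, ENNReal.mul_rpow_of_nonneg _ _ (by norm_num)]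
      norm_num
    · have e2 : ∫⁻ y, ((‖h y‖ₑ * ‖h (x - y)‖ₑ) ^ (1 / 3 : ℝ)) ^ 2 =
          ∫⁻ y, ‖h y‖ₑ ^ (2 / 3 : ℝ) * ‖h (x - y)‖ₑ ^ (2 / 3 : ℝ) := by
        refine lintegral_congr fun y => ?_
        rw [← ENNReal.rpow_natCast, ← ENNReal.rpow_mul, ENNReal.mul_rpow_of_nonneg _ _ (by norm_num)]
        norm_num
      rw [e2]
      have e3 := cs volume (fun y => ‖h y‖ₑ ^ (2 / 3 : ℝ)) (fun y => ‖h (x - y)‖ₑ ^ (2 / 3 : ℝ))
        (hm.enorm.pow_const _).aemeasurable ((hm' x).enorm.pow_const _).aemeasurable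
      have e4 : ∀ z : ℝ≥0∞, (z ^ (2 / 3 : ℝ)) ^ 2 = z ^ (4 / 3 : ℝ) := by
        intro z
        rw [← ENNReal.rpow_natCast, ← ENNReal.rpow_mul]
        norm_num
      simp_rw [e4] at e3
      rw [trans_int (fun y => ‖h y‖ₑ ^ (4 / 3 : ℝ)) x, ← hN, ← sq] at e3
      exact le_of_not_gt fun hlt => absurd e3 (not_le.mpr (ENNReal.pow_lt_pow_left two_ne_zero hlt))
  refine (lintegral_mono hpt).trans ?_
  have hmu : Measurable fun y => ‖h y‖ₑ ^ (4 / 3 : ℝ) := hm.enorm.pow_const _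
  rw [lintegral_mul_const]
  · rw [young_int (fun y => ‖h y‖ₑ ^ (4 / 3 : ℝ)) hmu, ← hN]
    exact le_of_eq (by ring)
  · exact Measurable.lintegral_prod_right' (f := fun z : ℝ × ℝ => ‖h z.2‖ₑ ^ (4 / 3 : ℝ) * ‖h (z.1 - z.2)‖ₑ ^ (4 / 3 : ℝ))
      ((hmu.comp measurable_snd).mul (hmu.comp (measurable_fst.sub measurable_snd)))

/-- the second case -/
theorem second (h : ℝ → ℂ) (hm : Measurable h) (A : Set ℝ) (hA : MeasurableSet A)
    (hsupp : ∀ x, x ∉ A → h x = 0) (M : ℝ≥0∞) (hM : ∀ x, volume {y | y ∈ A ∧ x - y ∈ A} ≤ M) :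
    ∫⁻ x, D h x ^ 2 ≤ (∫⁻ x, ‖h x‖ₑ ^ 2) ^ 2 * M := by
  have hm' : ∀ x : ℝ, Measurable fun y => h (x - y) := fun x =>
    hm.comp (measurable_const.sub measurable_id)
  have hpt : ∀ x, D h x ^ 2 ≤ (∫⁻ y, ‖h y‖ₑ ^ 2 * ‖h (x - y)‖ₑ ^ 2) * M := by
    intro x
    have hTm : MeasurableSet {y | y ∈ A ∧ x - y ∈ A} :=
      hA.inter ((measurable_const.sub measurable_id) hA)
    have e1 : D h x = ∫⁻ y, (‖h y‖ₑ * ‖h (x - y)‖ₑ) * {y | y ∈ A ∧ x - y ∈ A}.indicator (fun _ => 1) y := by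
      unfold D
      refine lintegral_congr fun y => ?_
      by_cases hy : y ∈ {y | y ∈ A ∧ x - y ∈ A}
      · rw [indicator_of_mem hy, mul_one]
      · rw [indicator_of_notMem hy, mul_zero]
        rw [mem_ofPred_eq, not_and_or] at hy
        rcases hy with hy | hy
        · rw [hsupp _ hy]; simp
        · rw [hsupp _ hy]; simp
    rw [e1]
    refine (cs volume _ _ (hm.enorm.mul (hm' x).enorm).aemeasurable
      (measurable_const.indicator hTm).aemeasurable).trans ?_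
    refine mul_le_mul' (le_of_eq ?_) ?_
    · refine lintegral_congr fun y => ?_
      simp only [Pi.mul_apply]
      ring
    · have e2 : ∫⁻ y, ({y | y ∈ A ∧ x - y ∈ A}.indicator (fun _ => (1 : ℝ≥0∞)) y) ^ 2 =
          volume {y | y ∈ A ∧ x - y ∈ A} := by
        rw [← lintegral_indicator_one hTm]
        refine lintegral_congr fun y => ?_
        by_cases hy : y ∈ {y | y ∈ A ∧ x - y ∈ A}
        · rw [indicator_of_mem hy, indicator_of_mem hy]; simp
        · rw [indicator_of_notMem hy, indicator_of_notMem hy]; simp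
      rw [e2]; exact hM x
  refine (lintegral_mono hpt).trans ?_
  have hmu : Measurable fun y => ‖h y‖ₑ ^ 2 := hm.enorm.pow_const _
  rw [lintegral_mul_const]
  · rw [young_int (fun y => ‖h y‖ₑ ^ 2) hmu]
  · exact Measurable.lintegral_prod_right' (f := fun z : ℝ × ℝ => ‖h z.2‖ₑ ^ 2 * ‖h (z.1 - z.2)‖ₑ ^ 2)
      ((hmu.comp measurable_snd).mul (hmu.comp (measurable_fst.sub measurable_snd)))

/-! ### the set -/

/-- a sparse union of unit intervals -/
def AA : Set ℝ := ⋃ j : ℕ, Icc ((4 : ℝ) ^ (j + 1)) (4 ^ (j + 1) + 1)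

theorem AA_meas : MeasurableSet AA := MeasurableSet.iUnion fun _ => measurableSet_Icc

theorem AA_sum (x : ℝ) : volume {y | y ∈ AA ∧ x - y ∈ AA} ≤ 4 := by
  by_cases hx : x < 4
  · have : {y | y ∈ AA ∧ x - y ∈ AA} = ∅ := by
      ext y
      simp only [mem_ofPred_eq, mem_empty_iff_false, iff_false, not_and]
      intro h1 h2
      obtain ⟨i, hi⟩ := mem_iUnion.mp h1
      obtain ⟨j, hj⟩ := mem_iUnion.mp h2
      have a1 : (4 : ℝ) ≤ 4 ^ (i + 1) := by
        have : (1 : ℝ) ≤ 4 ^ i := one_le_pow₀ (by norm_num)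
        rw [pow_succ]; linarith
      have a2 : (4 : ℝ) ≤ 4 ^ (j + 1) := by
        have : (1 : ℝ) ≤ 4 ^ j := one_le_pow₀ (by norm_num)
        rw [pow_succ]; linarith
      linarith [hi.1, hj.1]
    rw [this]; simp
  · push Not at hx
    -- the largest power below `x`
    obtain ⟨n, hn1, hn2⟩ := exists_nat_pow_near (x := x) (y := 4) (by linarith) (by norm_num)
    set I : ℝ → Set ℝ := fun m => Icc m (m + 1) ∪ Icc (x - m - 1) (x - m) with hI
    have hsub : {y | y ∈ AA ∧ x - y ∈ AA} ⊆ I (4 ^ n) ∪ I (4 ^ (n - 1)) := by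
      rintro y ⟨h1, h2⟩
      obtain ⟨i, hi⟩ := mem_iUnion.mp h1
      obtain ⟨j, hj⟩ := mem_iUnion.mp h2
      -- maximal exponent
      have hmax : ∀ k : ℕ, (4 : ℝ) ^ (k + 1) ≤ x → x ≤ 2 * 4 ^ (k + 1) + 2 → k + 1 = n ∨ k + 1 = n - 1 := by
        intro k hk1 hk2
        have b1 : k + 1 < n + 1 := by
          have : (4 : ℝ) ^ (k + 1) < 4 ^ (n + 1) := hk1.trans_lt hn2
          exact (pow_lt_pow_iff_right₀ (by norm_num)).mp this
        have b2 : n < k + 1 + 1 + 1 := by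
          have h4 : (1 : ℝ) ≤ 4 ^ (k + 1) := one_le_pow₀ (by norm_num)
          have : (4 : ℝ) ^ n < 4 ^ (k + 1 + 1 + 1) := by
            rw [pow_succ (4 : ℝ) (k + 1 + 1), pow_succ (4 : ℝ) (k + 1)]
            linarith
          exact (pow_lt_pow_iff_right₀ (by norm_num)).mp this
        omega
      rcases le_total i j with hij | hij
      · have hp : (4 : ℝ) ^ (i + 1) ≤ 4 ^ (j + 1) := pow_le_pow_right₀ (by norm_num) (by omega)
        have hj' := hmax j (by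
          have : (0 : ℝ) < 4 ^ (i + 1) := by positivity
          linarith [hi.1, hj.1]) (by linarith [hi.2, hj.2])
        have hy : y ∈ Icc (x - 4 ^ (j + 1) - 1) (x - 4 ^ (j + 1)) :=
          ⟨by linarith [hj.2], by linarith [hj.1]⟩
        rcases hj' with h | h
        · left; right; rw [h] at hy; exact hy
        · right; right; rw [h] at hy; exact hy
      · have hp : (4 : ℝ) ^ (j + 1) ≤ 4 ^ (i + 1) := pow_le_pow_right₀ (by norm_num) (by omega)
        have hi' := hmax i (by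
          have : (0 : ℝ) < 4 ^ (j + 1) := by positivity
          linarith [hi.1, hj.1]) (by linarith [hi.2, hj.2])
        rcases hi' with h | h
        · left; left; rw [h] at hi; exact hi
        · right; left; rw [h] at hi; exact hi
    have hvI : ∀ m, volume (I m) ≤ 2 := by
      intro m
      refine (measure_union_le _ _).trans ?_
      rw [Real.volume_Icc, Real.volume_Icc]
      rw [show m + 1 - m = 1 by ring, show x - m - (x - m - 1) = 1 by ring, ENNReal.ofReal_one]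
      norm_num
    refine (measure_mono hsub).trans ((measure_union_le _ _).trans ?_)
    refine (add_le_add (hvI _) (hvI _)).trans (by norm_num)

theorem AA_vol : volume AA = ∞ := by
  unfold AA
  rw [measure_iUnion]
  · have : ∀ j : ℕ, volume (Icc ((4 : ℝ) ^ (j + 1)) (4 ^ (j + 1) + 1)) = 1 := by
      intro j
      rw [Real.volume_Icc, show (4 : ℝ) ^ (j + 1) + 1 - 4 ^ (j + 1) = 1 by ring, ENNReal.ofReal_one]
    simp_rw [this]
    exact ENNReal.tsum_const_eq_top_of_ne_zero one_ne_zero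
  · have key : ∀ i j : ℕ, i < j → Disjoint (Icc ((4 : ℝ) ^ (i + 1)) (4 ^ (i + 1) + 1))
        (Icc ((4 : ℝ) ^ (j + 1)) (4 ^ (j + 1) + 1)) := by
      intro i j hij
      rw [Set.disjoint_left]
      intro y h1 h2
      have h3 : (4 : ℝ) ^ (i + 1 + 1) ≤ 4 ^ (j + 1) := pow_le_pow_right₀ (by norm_num) (by omega)
      have h4 : (1 : ℝ) ≤ 4 ^ (i + 1) := one_le_pow₀ (by norm_num)
      rw [pow_succ (4 : ℝ) (i + 1)] at h3
      linarith [h1.2, h2.1]
    intro i j hij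
    rcases lt_or_gt_of_ne hij with h | h
    · exact key i j h
    · exact (key j i h).symm
  · intro j; exact measurableSet_Icc

end Pool.Agent.V1178.DE
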